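import Pool.Agent.H2.Bal2

namespace Pool.Agent.Results.MP_33fb9b_co.BelowBeta

open Pool.Agent.H2.Bal

theorem card_PP : Fintype.card PP = 41 := Fintype.card_fin 41

theorem total : Nat.card (LinExt PP) = 1583915616 := by
  have h0 : cnt 0 0 = 1583915616 := by decide +kernel
  have h1 := ext_card (PP.mk' 0 (by omega)) (PP.mk' 0 (by omega))
  rw [← card_equiv_eq] at h1
  simp only [PP.v_mk'] at h1
  rw [← h0, ← h1]
  apply Nat.card_congr
  apply Equiv.subtypeEquivRight
  intro f
  constructor
  · intro hf a b hab hR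
    rcases hR with hR | ⟨rfl, rfl⟩
    · exact lt_of_le_of_ne (hf hR.le) (fun h => hab (f.injective h))
    · exact absurd rfl hab
  · intro hf a b hab
    rcases eq_or_lt_of_le hab with rfl | h
    · exact le_rfl
    · exact (hf a b h.ne (Or.inl h)).le

theorem count_eq (x y : PP) (hxy : x ≠ y) :
    Nat.card {f : LinExt PP // f.1 x < f.1 y} = cnt x.v y.v := by
  rw [← ext_card, ← card_equiv_eq]
  apply Nat.card_congr
  refine (Equiv.subtypeSubtypeEquivSubtypeInter
    (fun f : PP ≃ Fin (Fintype.card PP) => Monotone f) (fun f => f x < f y)).trans ?_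
  apply Equiv.subtypeEquivRight
  intro f
  constructor
  · rintro ⟨hf, h⟩ a b hab hR
    rcases hR with hR | ⟨rfl, rfl⟩
    · exact lt_of_le_of_ne (hf hR.le) (fun h => hab (f.injective h))
    · exact h
  · intro hf
    refine ⟨fun a b hab => ?_, hf x y hxy (Or.inr ⟨rfl, rfl⟩)⟩
    rcases eq_or_lt_of_le hab with rfl | h
    · exact le_rfl
    · exact (hf a b h.ne (Or.inl h)).le

theorem count_zero (x y : PP) (h : x ≤ y) : Nat.card {f : LinExt PP // f.1 y < f.1 x} = 0 := by
  have : IsEmpty {f : LinExt PP // f.1 y < f.1 x} :=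
    ⟨fun f => absurd f.2 (not_lt.2 (f.1.2 h))⟩
  exact Nat.card_of_isEmpty

theorem check : ∀ x y : Fin 41, leb x.val y.val = true ∨ leb y.val x.val = true ∨
    y.val < x.val ∨ cnt x.val y.val ≤ 552536892 ∨ cnt y.val x.val ≤ 552536892 := by
  decide +kernel

theorem prob_nonneg (x y : PP) : 0 ≤ prob x y := by unfold prob; positivity

theorem min_le (x y : PP) :
    min (prob x y) (prob y x) ≤ 15348247 / 43997656 := by
  have key : ∀ x y : PP, ¬ y.v < x.v → min (prob x y) (prob y x) ≤ 15348247 / 43997656 := by
    intro x y hlt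
    by_cases h1 : x ≤ y
    · apply min_le_of_right_le
      unfold prob; rw [count_zero x y h1]; norm_num
    by_cases h2 : y ≤ x
    · apply min_le_of_left_le
      unfold prob; rw [count_zero y x h2]; norm_num
    have hne : x ≠ y := fun h => h1 h.le
    rcases check x y with h | h | h | h | h
    · exact absurd h h1
    · exact absurd h h2
    · exact absurd h hlt
    · apply min_le_of_left_le
      unfold prob; rw [count_eq x y hne, total]
      have : (cnt x.v y.v : ℝ) ≤ 552536892 := by exact_mod_cast h
      rw [div_le_div_iff₀ (by norm_num) (by norm_num)]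
      push_cast; linarith
    · apply min_le_of_right_le
      unfold prob; rw [count_eq y x hne.symm, total]
      have : (cnt y.v x.v : ℝ) ≤ 552536892 := by exact_mod_cast h
      rw [div_le_div_iff₀ (by norm_num) (by norm_num)]
      push_cast; linarith
  by_cases h : y.v < x.v
  · rw [min_comm]; exact key y x (by omega)
  · exact key x y h

theorem delta_eq : delta PP = 15348247 / 43997656 := by
  have : Nonempty (PP × PP) := ⟨(PP.mk' 0 (by omega), PP.mk' 0 (by omega))⟩
  apply le_antisymm
  · exact ciSup_le (fun p => min_le p.1 p.2)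
  · have hb : BddAbove (Set.range fun p : PP × PP => min (prob p.1 p.2) (prob p.2 p.1)) :=
      (Set.finite_range _).bddAbove
    refine le_trans ?_ (le_ciSup hb (PP.mk' 0 (by omega), PP.mk' 20 (by omega)))
    have hne : PP.mk' 0 (by omega) ≠ PP.mk' 20 (by omega) := fun h => by
      have := congrArg PP.v h; simp at this
    have c1 : cnt 0 20 = 552536892 := by decide +kernel
    have c2 : cnt 20 0 = 1031378724 := by decide +kernel
    simp only [prob]
    rw [count_eq _ _ hne, count_eq _ _ hne.symm, total]
    simp only [PP.v_mk', c1, c2]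
    norm_num

theorem summand_card (b : Bool) : ∃ g : Summand b → Fin 3, Function.Injective g := by
  cases b
  · exact ⟨fun _ => 0, fun a b _ => Subsingleton.elim (α := Unit) a b⟩
  · refine ⟨fun (x : Fin 2 ⊕ Unit) => Sum.elim (fun i => i.castSucc) (fun _ => 2) x, ?_⟩
    change Function.Injective (fun (x : Fin 2 ⊕ Unit) =>
      Sum.elim (fun i : Fin 2 => (i.castSucc : Fin 3)) (fun _ => 2) x)
    decide

theorem not_inD : ¬ InD PP := by
  rintro ⟨k, -, s, ⟨e⟩⟩
  have hinc : ∀ x y : PP, ¬ x ≤ y → ¬ y ≤ x → (e x).1 = (e y).1 := by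
    intro x y h1 h2
    rw [← e.le_iff_le, Sigma.Lex.le_def] at h1 h2
    rcases lt_trichotomy (e x).1 (e y).1 with h | h | h
    · exact absurd (Or.inl h) h1
    · exact h
    · exact absurd (Or.inl h) h2
  choose g hg using summand_card
  let G : Lex (Σ i : Fin k, Summand (s i)) → Fin 3 := fun z => g (s z.1) z.2
  have hG : ∀ z w : Lex (Σ i : Fin k, Summand (s i)), z.1 = w.1 → G z = G w → z = w := by
    rintro ⟨i, a⟩ ⟨j, b⟩ h1 h2
    simp only at h1
    subst h1
    have : a = b := hg _ h2
    rw [this]
  let p : Fin 4 → PP := ![PP.mk' 0 (by omega), PP.mk' 20 (by omega), PP.mk' 21 (by omega),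
    PP.mk' 22 (by omega)]
  have hp : ∀ i, (e (p i)).1 = (e (p 0)).1 := by
    intro i
    fin_cases i
    · rfl
    all_goals
      apply hinc <;> rw [PP.le_def] <;> decide +kernel
  have hpi : Function.Injective (fun i => (p i).v) := by decide +kernel
  have hinj : Function.Injective (fun i => G (e (p i))) := by
    intro i j hij
    have := e.injective (hG _ _ ((hp i).trans (hp j).symm) hij)
    exact hpi (congrArg PP.v this)
  have := Fintype.card_le_of_injective _ hinj
  simp at this

theorem lt_beta : (15348247 / 43997656 : ℝ) < beta := by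
  have : (7.5 : ℝ) ≤ Real.sqrt 57 := Real.le_sqrt_of_sq_le (by norm_num)
  unfold beta
  rw [div_lt_div_iff₀ (by norm_num) (by norm_num)]
  linarith

theorem result : ∃ (P : Type) (_ : Fintype P) (_ : PartialOrder P),
    Fintype.card P = 41 ∧ ¬ InD P ∧ delta P = 15348247 / 43997656 ∧ delta P < beta :=
  ⟨PP, inferInstance, inferInstance, card_PP, not_inD, delta_eq, delta_eq ▸ lt_beta⟩

end Pool.Agent.Results.MP_33fb9b_co.BelowBeta
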